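import Pool.Agent.H22.FS10

set_option autoImplicit false

namespace Pool.Agent.Results.MP_5b8c2d_co.Super

theorem result :
    ¬ (∃ K : ℝ, ∀ n : ℕ, 2 ≤ n → ∀ T Y : SimpleGraph (Fin n), T.IsTree →
      ∀ σ τ : Equiv.Perm (Fin n),
      (SimpleGraph.fromRel (fun s t : Equiv.Perm (Fin n) =>
          ∃ a b : Fin n, T.Adj a b ∧ Y.Adj (s a) (s b) ∧ t = s * Equiv.swap a b)).Reachable σ τ →
      (((SimpleGraph.fromRel (fun s t : Equiv.Perm (Fin n) =>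
          ∃ a b : Fin n, T.Adj a b ∧ Y.Adj (s a) (s b) ∧ t = s * Equiv.swap a b)).dist σ τ : ℕ) : ℝ)
        ≤ (n : ℝ) ^ K) :=
  Pool.Agent.H22.FS.tree_main

end Pool.Agent.Results.MP_5b8c2d_co.Super
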